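import Pool.Agent.U80.GT.Den
import Pool.Agent.U80.GT.Sum
import Pool.Agent.U860.DS.Fam

/-!
# Members: twists with minimal Selmer groups, over the fields of their towers
-/

set_option autoImplicit false
set_option linter.all false

open scoped Classical

open WeierstrassCurve NumberField

namespace Pool.Agent.U860.DT

open Pool.Agent.TH841.NF.D (Sha)
open Pool.Agent.U80.GT
open Pool.Agent.Y682 (gc)
open Pool.Agent.U80.NP (locA_iff)

/-- the two forms of the Selmer group agree -/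
theorem selset_eq (a b : ℤ) : Pool.Agent.U115.GE.SelSet a b = Pool.Agent.U80.NP.Sel a b := by
  ext d
  constructor
  · rintro ⟨h1, h2, h3⟩
    refine ⟨h1, ?_, fun p _ => ?_⟩
    · have hd : (d : ℝ) ≠ 0 := by exact_mod_cast h1.ne_zero
      exact (locA_iff hd (mul_div_cancel₀ _ hd).symm).2 h2
    · have hd : (d : ℚ_[p]) ≠ 0 := by exact_mod_cast h1.ne_zero
      exact (locA_iff hd (mul_div_cancel₀ _ hd).symm).2 (h3 p)
  · rintro ⟨h1, h2, h3⟩
    refine ⟨h1, ?_, fun p _ => ?_⟩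
    · have hd : (d : ℝ) ≠ 0 := by exact_mod_cast h1.ne_zero
      exact (locA_iff hd (mul_div_cancel₀ _ hd).symm).1 h2
    · have hd : (d : ℚ_[p]) ≠ 0 := by exact_mod_cast h1.ne_zero
      exact (locA_iff hd (mul_div_cancel₀ _ hd).symm).1 (h3 p)

theorem nn_eq (a b : ℤ) : NN a b = (Pool.Agent.U115.GE.SelSet a b).ncard *
    (Pool.Agent.U115.GE.SelSet (-2 * a) (a ^ 2 - 4 * b)).ncard := by
  rw [selset_eq, selset_eq]
  rfl

theorem sr_iff {a b : ℤ} (hb : b ≠ 0) (hc : a ^ 2 - 4 * b ≠ 0) : SR a b = 0 ↔ NN a b = 4 := by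
  obtain ⟨t, ht, hNN⟩ := sr_nat hb hc
  rw [ht, hNN]
  constructor
  · intro h
    have : t = 0 := by exact_mod_cast h
    rw [this]
    norm_num
  · intro h
    by_contra h0
    have ht0 : t ≠ 0 := fun h => h0 (by rw [h]; rfl)
    have := Nat.one_lt_two_pow ht0
    omega

/-- **the points and `Ш[2^∞]` over the number fields in the tower** (after helper80,
`MP_78d38b_nt/TowersEveryCurve`) -/
theorem over_tower {a b : ℤ} (hb : b ≠ 0) (hc : a ^ 2 - 4 * b ≠ 0) {D : ℕ} (hD : Dn a b D)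
    (hs : NN (a * D) (b * (D : ℤ) ^ 2) = 4) (K : IntermediateField ℚ ℂ) [NumberField K]
    (hK : K ≤ TF a b D) :
    ∃ n : ℕ, Module.finrank ℚ K = 2 ^ n ∧ Finite (gc (a * D) (b * (D : ℤ) ^ 2) K).toAffine.Point ∧
      ∀ (k : ℕ) (x : Sha (gc (a * D) (b * (D : ℤ) ^ 2) K)),
        (2 ^ k : ℕ) • x = 0 → (2 ^ n : ℕ) • x = 0 := by
  have hDz : (D : ℤ) ≠ 0 := by exact_mod_cast hD.1.ne_zero
  have hfd : FiniteDimensional ℚ K := inferInstance
  obtain ⟨P, hP1, hP2⟩ := sub_TF (a := a) (b := b) (D := D) K hK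
  have h1 := all_rank hb hc hD (s := 0) (by rw [hs]; norm_num) hP1 K hP2
  rw [mul_zero] at h1
  have h2 := fin_of_zero hb hc hDz K (Nat.le_zero.1 h1)
  obtain ⟨n, hn, h3⟩ := all_sha hb hc hD hs hP1 K hP2
  exact ⟨n, hn, h2, h3⟩

/-- twists by products of tower primes -/
theorem mem_mul {a b : ℤ} (hb : b ≠ 0) (hc : a ^ 2 - 4 * b ≠ 0) {D : ℕ} (hD : Dn a b D)
    {U : Finset ℕ} (hU : ∀ q ∈ U, TP a b D q) :
    Dn a b (D * ∏ q ∈ U, q) ∧
      NN (a * ((D * ∏ q ∈ U, q : ℕ) : ℤ)) (b * ((D * ∏ q ∈ U, q : ℕ) : ℤ) ^ 2) =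
        NN (a * D) (b * (D : ℤ) ^ 2) := by
  have hsf : Squarefree (∏ q ∈ U, q) := by
    refine Finset.squarefree_prod_of_pairwise_isCoprime ?_ fun q hq => (hU q hq).1.squarefree
    intro p hp q hq hpq
    exact Nat.coprime_iff_isRelPrime.1 ((Nat.coprime_primes (hU p hp).1 (hU q hq).1).2 hpq)
  have hcop : Nat.Coprime D (∏ q ∈ U, q) := Nat.Coprime.prod_right fun q hq =>
    ((Nat.Prime.coprime_iff_not_dvd (hU q hq).1).2 (hU q hq).2.2.1).symm
  have hDM : Dn a b (D * ∏ q ∈ U, q) := by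
    refine ⟨(Nat.squarefree_mul hcop).2 ⟨hD.1, hsf⟩, fun p hp => ?_⟩
    have hpp := Nat.prime_of_mem_primeFactors hp
    rcases (Nat.Prime.dvd_mul hpp).1 (Nat.dvd_of_mem_primeFactors hp) with h | h
    · exact hD.2 p (Nat.mem_primeFactors.2 ⟨hpp, h, hD.1.ne_zero⟩)
    · obtain ⟨q, hq, h1⟩ := (Prime.dvd_finset_prod_iff hpp.prime _).1 h
      have h2 : p = q := (Nat.prime_dvd_prime_iff_eq hpp (hU q hq).1).1 h1
      subst h2
      obtain ⟨-, h8, -, n1, n2, -⟩ := hU p hq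
      refine ⟨by omega, fun h3 => ?_⟩
      have h4 : ((b * (a ^ 2 - 4 * b) : ℤ) : ZMod p) = 0 := (ZMod.intCast_zmod_eq_zero_iff_dvd _ p).2 h3
      have : Fact p.Prime := ⟨hpp⟩
      rw [Int.cast_mul, mul_eq_zero] at h4
      rcases h4 with h4 | h4
      · exact n1 (by rw [h4]; exact ⟨0, by ring⟩)
      · exact n2 (by rw [h4]; exact ⟨0, by ring⟩)
  refine ⟨hDM, ?_⟩
  have h := nn_tow hb hc hD hU (k := 1) one_ne_zero
  have e1 : a * D * (((∏ q ∈ U, q) * 1 ^ 2 : ℕ) : ℤ) = a * ((D * ∏ q ∈ U, q : ℕ) : ℤ) := by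
    push_cast
    ring
  have e2 : b * (D : ℤ) ^ 2 * (((∏ q ∈ U, q) * 1 ^ 2 : ℕ) : ℤ) ^ 2 =
      b * ((D * ∏ q ∈ U, q : ℕ) : ℤ) ^ 2 := by
    push_cast
    ring
  rw [e1, e2] at h
  exact h

/-- several twists of one curve have a common tower of infinite degree -/
theorem common {a b : ℤ} (hb : b ≠ 0) (hc : a ^ 2 - 4 * b ≠ 0)
    (h : (∃ p : ℕ, p.Prime ∧ p ≠ 2 ∧ (p : ℤ) ∣ a ∧ (p : ℤ) ∣ b ∧ ¬ (p : ℤ) ^ 2 ∣ b) ∨
      ((∃ p : ℕ, p.Prime ∧ p ≠ 2 ∧ ¬ (p : ℤ) ∣ a ∧ Odd (padicValInt p b)) ∧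
        ∃ p : ℕ, p.Prime ∧ p ≠ 2 ∧ ¬ (p : ℤ) ∣ a ∧ Odd (padicValInt p (a ^ 2 - 4 * b))))
    {n : ℕ} (D : Fin n → ℕ) (hD : ∀ i, Dn a b (D i)) :
    ¬ FiniteDimensional ℚ (⨅ i, TF a b (D i) : IntermediateField ℚ ℂ) := by
  let S : Finset ℕ := Finset.univ.biUnion fun i => (D i).primeFactors
  have hSp : ∀ p ∈ S, p.Prime := by
    intro p hp
    obtain ⟨i, -, hi⟩ := Finset.mem_biUnion.1 hp
    exact Nat.prime_of_mem_primeFactors hi
  have hS : (∏ p ∈ S, p).primeFactors = S := Nat.primeFactors_prod hSp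
  have hD' : Dn a b (∏ p ∈ S, p) := by
    refine ⟨?_, fun p hp => ?_⟩
    · refine Finset.squarefree_prod_of_pairwise_isCoprime ?_ fun q hq => (hSp q hq).squarefree
      intro p hp q hq hpq
      exact Nat.coprime_iff_isRelPrime.1 ((Nat.coprime_primes (hSp p hp) (hSp q hq)).2 hpq)
    · rw [hS] at hp
      obtain ⟨i, -, hi⟩ := Finset.mem_biUnion.1 hp
      exact (hD i).2 p hi
  have hinf := TF_inf (tp_inf hb hc hD' h)
  intro hfd
  apply hinf
  have hle : TF a b (∏ p ∈ S, p) ≤ ⨅ i, TF a b (D i) := by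
    refine le_iInf fun i => ?_
    refine IntermediateField.adjoin.mono _ _ _ ?_
    rintro z ⟨q, hq, hz⟩
    refine ⟨q, ?_, hz⟩
    obtain ⟨h1, h2, h3, h4, h5, h6, h7⟩ := hq
    have hsub : ∀ p ∈ (D i).primeFactors, p ∈ S := fun p hp =>
      Finset.mem_biUnion.2 ⟨i, Finset.mem_univ i, hp⟩
    refine ⟨h1, h2, fun h8 => ?_, h4, h5, h6, fun p hp => h7 p (by rw [hS]; exact hsub p hp)⟩
    have h9 : q ∈ S := hsub q (Nat.mem_primeFactors.2 ⟨h1, h8, (hD i).1.ne_zero⟩)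
    exact h3 (Finset.dvd_prod_of_mem _ h9)
  exact FiniteDimensional.of_injective (IntermediateField.inclusion hle).toLinearMap
    (IntermediateField.inclusion hle).injective

end Pool.Agent.U860.DT
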